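import Pool.Agent.Run7.h571.ToricMain

/-!
# Toric g-polynomials of chordal nestohedra and cyclohedra (MP_141d57, Q2)

Every nonnegative combination `∑ γ_j g_{n,j}` (not all `γ_j` zero) is real-rooted. The Legendre
polynomial of degree `n`, in the variable `u` with `u^2 = 1/(1-x)`, separates the roots of all
`g_{n,j}` at once. This is applied to the gamma vectors of cyclohedra and chordal nestohedra.
-/

namespace Pool.Agent.Results.MP_141d57_co.NonnegCombinations

open Polynomial Finset
open Pool.Agent.Results.MP_141d57_co.GContribRealRooted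

/-- `γ` is the gamma vector of the polynomial `h` in dimension `n`:
`h = ∑_{j ≤ n/2} γ_j X^j (1+X)^(n-2j)`. -/
def IsGamma (n : ℕ) (h : ℝ[X]) (γ : ℕ → ℝ) : Prop :=
  h = ∑ j ∈ range (n / 2 + 1), C (γ j) * (X ^ j * (1 + X) ^ (n - 2 * j))

/-- `g` is the toric g-polynomial belonging to the h-polynomial `h` of a simple `n`-polytope:
`g = ∑_{j ≤ n/2} γ_j g_{n,j}` with `γ` the gamma vector of `h`. -/
def IsToricG (n : ℕ) (h g : ℝ[X]) : Prop :=
  ∃ γ : ℕ → ℝ, IsGamma n h γ ∧ g = ∑ j ∈ range (n / 2 + 1), C (γ j) * gPoly n j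

/-- The h-polynomial `∑ binom(n,i)^2 X^i` of the `n`-dimensional cyclohedron. -/
noncomputable def cycloH (n : ℕ) : ℝ[X] :=
  ∑ i ∈ range (n + 1), C (((n.choose i) ^ 2 : ℕ) : ℝ) * X ^ i

/-- A connected chordal building set on `Fin (n+1)`. -/
structure ChordalBuilding (n : ℕ) (B : Set (Finset (Fin (n + 1)))) : Prop where
  nonempty : ∀ I ∈ B, I.Nonempty
  singleton : ∀ i : Fin (n + 1), {i} ∈ B
  union : ∀ I ∈ B, ∀ J ∈ B, (I ∩ J).Nonempty → I ∪ J ∈ B
  connected : Finset.univ ∈ B
  chordal : ∀ I ∈ B, ∀ i ∈ I, I.filter (fun k => i ≤ k) ∈ B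

/-- `w` is a `B`-permutation: for every `i`, the entry `w i` and the maximum of the entries
`w k`, `k ≤ i`, lie in a common member of `B` inside `{w k : k ≤ i}`. -/
def BPerm (n : ℕ) (B : Set (Finset (Fin (n + 1)))) (w : Equiv.Perm (Fin (n + 1))) : Prop :=
  ∀ i, ∃ I ∈ B, (∀ x ∈ I, ∃ k ≤ i, w k = x) ∧ w i ∈ I ∧ ∃ m ∈ I, ∀ k ≤ i, w k ≤ m

/-- `w` has a descent at the position `i`. -/
def Desc (n : ℕ) (w : Equiv.Perm (Fin (n + 1))) (i : Fin n) : Prop := w i.succ < w i.castSucc

/-- The number of `B`-permutations with `j` descents, no double descent, no final descent. -/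
noncomputable def chordalGamma (n : ℕ) (B : Set (Finset (Fin (n + 1)))) (j : ℕ) : ℕ :=
  Nat.card {w : Equiv.Perm (Fin (n + 1)) // BPerm n B w ∧
    (∀ i i' : Fin n, (i' : ℕ) = i + 1 → ¬(Desc n w i ∧ Desc n w i')) ∧
    (∀ i : Fin n, (i : ℕ) + 1 = n → ¬Desc n w i) ∧
    Nat.card {i : Fin n // Desc n w i} = j}

theorem coeff_gamma (n : ℕ) (γ : ℕ → ℝ) (i : ℕ) :
    (∑ j ∈ range (n / 2 + 1), C (γ j) * (X ^ j * (1 + X) ^ (n - 2 * j)) : ℝ[X]).coeff i =
      ∑ j ∈ range (n / 2 + 1), if j ≤ i then γ j * ((n - 2 * j).choose (i - j) : ℝ) else 0 := by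
  rw [finsetSum_coeff]
  apply sum_congr rfl
  intro j _
  rw [coeff_C_mul, coeff_X_pow_mul']
  split_ifs with h
  · rw [coeff_one_add_X_pow]
  · simp

theorem gamma_unique (n : ℕ) (h : ℝ[X]) (γ δ : ℕ → ℝ) (h1 : IsGamma n h γ)
    (h2 : IsGamma n h δ) (j : ℕ) (hj : j ≤ n / 2) : γ j = δ j := by
  induction j using Nat.strong_induction_on with
  | _ j ih =>
    have h3 : (∑ i ∈ range (n / 2 + 1), if i ≤ j then
        γ i * ((n - 2 * i).choose (j - i) : ℝ) else 0) =
        ∑ i ∈ range (n / 2 + 1), if i ≤ j then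
        δ i * ((n - 2 * i).choose (j - i) : ℝ) else 0 := by
      rw [← coeff_gamma, ← coeff_gamma, ← h1, ← h2]
    have h4 : j ∈ range (n / 2 + 1) := mem_range.mpr (by omega)
    rw [← add_sum_erase _ _ h4, ← add_sum_erase _ _ h4] at h3
    have h5 : ∑ i ∈ (range (n / 2 + 1)).erase j, (if i ≤ j then
        γ i * ((n - 2 * i).choose (j - i) : ℝ) else 0) =
        ∑ i ∈ (range (n / 2 + 1)).erase j, if i ≤ j then
        δ i * ((n - 2 * i).choose (j - i) : ℝ) else 0 := by
      apply sum_congr rfl
      intro i hi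
      rw [mem_erase, mem_range] at hi
      split_ifs with h6
      · rw [ih i (by omega) (by omega)]
      · rfl
    rw [h5] at h3
    simpa using h3

theorem nat_id (n i j : ℕ) (hi : i ≤ n) (hj : j ≤ i) (hj2 : j ≤ n - i) :
    n.choose (2 * j) * (2 * j).choose j * (n - 2 * j).choose (i - j) =
      n.choose i * (i.choose (i - j) * (n - i).choose j) := by
  have e1 := Nat.choose_mul_factorial_mul_factorial (n := n) (k := 2 * j) (by omega)
  have e2 := Nat.choose_mul_factorial_mul_factorial (n := 2 * j) (k := j) (by omega)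
  have e3 := Nat.choose_mul_factorial_mul_factorial (n := n - 2 * j) (k := i - j) (by omega)
  have e4 := Nat.choose_mul_factorial_mul_factorial (n := n) (k := i) (by omega)
  have e5 := Nat.choose_mul_factorial_mul_factorial (n := i) (k := i - j) (by omega)
  have e6 := Nat.choose_mul_factorial_mul_factorial (n := n - i) (k := j) (by omega)
  rw [show 2 * j - j = j by omega] at e2
  rw [show n - 2 * j - (i - j) = n - i - j by omega] at e3
  rw [show i - (i - j) = j by omega] at e5
  have hpos : 0 < j.factorial * j.factorial * (i - j).factorial * (n - i - j).factorial := by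
    positivity
  apply Nat.eq_of_mul_eq_mul_right hpos
  calc _ = n.choose (2 * j) * ((2 * j).choose j * j.factorial * j.factorial) *
        ((n - 2 * j).choose (i - j) * (i - j).factorial * (n - i - j).factorial) := by ring
    _ = n.choose i * (i.choose (i - j) * (i - j).factorial * j.factorial) *
        ((n - i).choose j * j.factorial * (n - i - j).factorial) := by
      rw [e2, e3, e5, e6, e1, e4]
    _ = _ := by ring

theorem cyclo_gamma (n : ℕ) :
    IsGamma n (cycloH n) (fun j => ((n.choose (2 * j) * (2 * j).choose j : ℕ) : ℝ)) := by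
  unfold IsGamma
  ext i
  rw [coeff_gamma]
  have hL : (cycloH n).coeff i = (((n.choose i) ^ 2 : ℕ) : ℝ) := by
    unfold cycloH
    rw [finsetSum_coeff]
    by_cases hi : i ≤ n
    · rw [sum_eq_single i]
      · rw [coeff_C_mul_X_pow, if_pos rfl]
      · intro k _ hk
        rw [coeff_C_mul_X_pow, if_neg (fun h => hk h.symm)]
      · intro h
        exact absurd (mem_range.mpr (by omega)) h
    · rw [Nat.choose_eq_zero_of_lt (by omega)]
      apply (sum_eq_zero _).trans (by simp)
      intro k hk
      rw [mem_range] at hk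
      rw [coeff_C_mul_X_pow, if_neg (by omega)]
  rw [hL]
  by_cases hi : i ≤ n
  · have hV : n.choose i = ∑ j ∈ range (i + 1), i.choose (i - j) * (n - i).choose j := by
      have h1 := Nat.add_choose_eq (n - i) i i
      rw [Nat.sub_add_cancel hi, Nat.sum_antidiagonal_eq_sum_range_succ_mk] at h1
      rw [h1]
      apply sum_congr rfl
      intro j _
      ring
    have h2 : ((n.choose i) ^ 2 : ℕ) = ∑ j ∈ range (n / 2 + 1), if j ≤ i then
        n.choose (2 * j) * (2 * j).choose j * (n - 2 * j).choose (i - j) else 0 := by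
      have h3 : ∀ j ∈ range (n / 2 + 1), (if j ≤ i then
          n.choose (2 * j) * (2 * j).choose j * (n - 2 * j).choose (i - j) else 0) =
          if j ≤ i then n.choose i * (i.choose (i - j) * (n - i).choose j) else 0 := by
        intro j hj
        rw [mem_range] at hj
        split_ifs with h4
        · by_cases h5 : j ≤ n - i
          · exact nat_id n i j hi h4 h5
          · rw [Nat.choose_eq_zero_of_lt (show n - 2 * j < i - j by omega),
              Nat.choose_eq_zero_of_lt (show n - i < j by omega)]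
            simp
        · rfl
      have h4 : ∑ j ∈ range (i + 1), i.choose (i - j) * (n - i).choose j =
          ∑ j ∈ range (n + 1), if j ≤ i then i.choose (i - j) * (n - i).choose j else 0 := by
        rw [← sum_subset (range_subset_range.mpr (by omega : i + 1 ≤ n + 1))]
        · apply sum_congr rfl
          intro j hj
          rw [mem_range] at hj
          rw [if_pos (by omega)]
        · intro j _ hj
          rw [mem_range] at hj
          rw [if_neg (by omega)]
      have h5 : (∑ j ∈ range (n / 2 + 1), if j ≤ i then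
          i.choose (i - j) * (n - i).choose j else 0) =
          ∑ j ∈ range (n + 1), if j ≤ i then i.choose (i - j) * (n - i).choose j else 0 := by
        apply sum_subset (range_subset_range.mpr (by omega : n / 2 + 1 ≤ n + 1))
        intro j _ hj
        rw [mem_range] at hj
        split_ifs with h6
        · rw [Nat.choose_eq_zero_of_lt (show n - i < j by omega), mul_zero]
        · rfl
      rw [sum_congr rfl h3]
      have h6 : (∑ j ∈ range (n / 2 + 1), if j ≤ i then
          n.choose i * (i.choose (i - j) * (n - i).choose j) else 0) =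
          n.choose i * ∑ j ∈ range (n / 2 + 1), if j ≤ i then
          i.choose (i - j) * (n - i).choose j else 0 := by
        rw [mul_sum]
        apply sum_congr rfl
        intro j _
        split_ifs <;> simp
      rw [h6, h5, ← h4, ← hV, pow_two]
    rw [h2]
    push_cast
    apply sum_congr rfl
    intro j _
    split_ifs
    · ring
    · simp
  · rw [Nat.choose_eq_zero_of_lt (by omega)]
    symm
    apply (sum_eq_zero _).trans (by simp)
    intro j hj
    rw [mem_range] at hj
    split_ifs with h4
    · rw [Nat.choose_eq_zero_of_lt (show n - 2 * j < i - j by omega)]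
      simp
    · rfl

theorem chordal_pos (n : ℕ) (B : Set (Finset (Fin (n + 1)))) (hB : ChordalBuilding n B) :
    0 < chordalGamma n B 0 := by
  unfold chordalGamma
  have hD : ∀ i : Fin n, ¬Desc n (1 : Equiv.Perm (Fin (n + 1))) i := by
    intro i h
    unfold Desc at h
    simp only [Equiv.Perm.coe_one, id_eq] at h
    exact absurd h (by simp [Fin.lt_def])
  rw [Nat.card_pos_iff]
  refine ⟨⟨⟨1, ?_, ?_, ?_, ?_⟩⟩, inferInstance⟩
  · intro i
    refine ⟨{i}, hB.singleton i, ?_, ?_, i, ?_, ?_⟩
    · intro x hx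
      rw [mem_singleton] at hx
      exact ⟨i, le_rfl, by rw [hx]; rfl⟩
    · simp
    · simp
    · intro k hk
      simpa using hk
  · intro i _ _ h
    exact hD i h.1
  · intro i _
    exact hD i
  · rw [Nat.card_eq_zero]
    left
    exact ⟨fun x => hD x.1 x.2⟩

/-- MP_141d57, Q2. (1) Every nonnegative combination of the `g_{n,j}`, `j ≤ n/2`, not all
coefficients zero, is real-rooted. (2) The toric g-polynomial of the `n`-dimensional cyclohedron
is real-rooted. (3) For every connected chordal building set the polynomial `∑ γ_j g_{n,j}`, with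
`γ_j` the number of `B`-permutations with `j` descents and neither double nor final descent, is
real-rooted. -/
theorem result :
    (∀ n : ℕ, 1 ≤ n → ∀ γ : ℕ → ℝ, (∀ j, j ≤ n / 2 → 0 ≤ γ j) → (∃ j, j ≤ n / 2 ∧ γ j ≠ 0) →
      RealRooted (∑ j ∈ range (n / 2 + 1), C (γ j) * gPoly n j)) ∧
    (∀ n : ℕ, 1 ≤ n → (∃ g, IsToricG n (cycloH n) g) ∧
      ∀ g, IsToricG n (cycloH n) g → RealRooted g) ∧
    (∀ n : ℕ, 1 ≤ n → ∀ B : Set (Finset (Fin (n + 1))), ChordalBuilding n B →
      RealRooted (∑ j ∈ range (n / 2 + 1), C ((chordalGamma n B j : ℕ) : ℝ) * gPoly n j)) := by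
  refine ⟨fun n _ γ h0 h1 => Run7.H571.Toric.comb_realRooted n γ h0 h1, fun n _ => ⟨⟨_, _,
    cyclo_gamma n, rfl⟩, ?_⟩, ?_⟩
  · rintro g ⟨γ, hγ, rfl⟩
    have h1 := fun j hj => gamma_unique n _ _ _ hγ (cyclo_gamma n) j hj
    apply Run7.H571.Toric.comb_realRooted n γ
    · intro j hj
      rw [h1 j hj]
      positivity
    · refine ⟨0, by omega, ?_⟩
      rw [h1 0 (by omega)]
      simp
  · intro n _ B hB
    apply Run7.H571.Toric.comb_realRooted n (fun j => ((chordalGamma n B j : ℕ) : ℝ))
    · intro j _
      positivity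
    · refine ⟨0, by omega, ?_⟩
      have := chordal_pos n B hB
      positivity

end Pool.Agent.Results.MP_141d57_co.NonnegCombinations
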